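import Pool.Agent.Y463.SK.Gen

/-!
# Powers of a pure braid: the abstract form of the vanishing argument
-/

set_option autoImplicit false

namespace Pool.Agent.X315.VP

open Finset LaurentPolynomial Pool.Agent.H891R2.Jones Pool.Agent.W639.RB Pool.Agent.Y463.SK

/-- **One pure braid, for arbitrary functionals** on the algebra `BB m`. -/
theorem single_abs {m : ℕ} (hm : 0 < m) (w : List (Bool × ℕ)) (hw : ∀ x ∈ w, x.2 + 1 < m)
    (hp : permL w = 1) (U : Fin m → Bool) (f : ℤ → ℤ[T;T⁻¹]) (K : {N : ℕ // 3 ≤ N} → ℂ)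
    (Φ : {N : ℕ // 3 ≤ N} → BB m → ℂ) (hΦa : ∀ N b b', Φ N (b + b') = Φ N b + Φ N b')
    (hΦs : ∀ (N : {N : ℕ // 3 ≤ N}) (r : ℤ[T;T⁻¹]) b, Φ N (r • b) = ev N.1 N.2 r * Φ N b)
    (hkey : ∀ (N : {N : ℕ // 3 ≤ N}) (n : ℤ), (N.1 : ℂ) * ev N.1 N.2 (f n) =
      K N * Φ N ((T (-3 * (n * costS w (pat U))) : ℤ[T;T⁻¹]) • bb m (powL w n)))
    (F : ℤ[T;T⁻¹]) :
    (∀ n : ℤ, f n = F) ∨ ∀ Z : Finset ℤ, (∀ z ∈ Z, f z = F) → Z.card ≤ m.factorial := by
  have hΦ0 : ∀ N, Φ N 0 = 0 := by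
    intro N
    have h := hΦa N 0 0
    rw [add_zero] at h
    linear_combination -h
  have hΦsub : ∀ N b b', Φ N (b - b') = Φ N b - Φ N b' := by
    intro N b b'
    have h := hΦa N (b - b') b'
    rw [sub_add_cancel] at h
    rw [h]; ring
  set c := costS w (pat U) with hc
  set u : ℤ[T;T⁻¹] := T (-3 * c) with hu
  have hcev : Even (-3 * c) := (even_cost w hw hp U).mul_left (-3)
  have hpi : (T 1 + 1 : ℤ[T;T⁻¹]) ∣ u - 1 := pi_dvd_T_even _ hcev
  obtain ⟨p, hp1, hp2, hp3, hp4⟩ := exists_poly (A := (T 1 : ℤ[T;T⁻¹])) (A' := T (-1)) T_mul_inv rfl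
    (isTLr_EB m) hm (EB_zero m) w hw hp u hpi
  set X : ℤ → BB m := fun n => (T (-3 * (n * c)) : ℤ[T;T⁻¹]) • bb m (powL w n) with hX
  set b : BB m := u • bb m w with hb
  have hXs : ∀ n, X (n+1) = b * X n := by
    intro n
    simp only [hX, hb]
    rw [bb_pow_succ w hw n, smul_mul_smul_comm, hu, ← T_add]
    congr 2
    ring
  have hpow : ∀ (N : {N : ℕ // 3 ≤ N}) (k : ℕ) (n : ℤ),
      (N.1 : ℂ) * ev N.1 N.2 (((Dl ℤ[T;T⁻¹]) ^ k) f n) = K N * Φ N ((b - 1) ^ k * X n) := by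
    intro N k
    induction k with
    | zero =>
      intro n
      rw [pow_zero, pow_zero, one_mul]
      exact hkey N n
    | succ k ih =>
      intro n
      have h1 : ((Dl ℤ[T;T⁻¹]) ^ (k+1)) f n =
          ((Dl ℤ[T;T⁻¹]) ^ k) f (n+1) - ((Dl ℤ[T;T⁻¹]) ^ k) f n := by
        rw [pow_succ', Module.End.mul_apply]
        rfl
      rw [h1, map_sub, mul_sub, ih (n+1), ih n, ← mul_sub, ← hΦsub]
      congr 2
      rw [hXs, pow_succ]
      noncomm_ring
  have hrec : Polynomial.aeval (Dl ℤ[T;T⁻¹]) p f = 0 := by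
    funext n
    apply eq_zero_of_ev
    intro N hN
    have hNC : (N : ℂ) ≠ 0 := by
      rw [Nat.cast_ne_zero]; omega
    have h1 : (N : ℂ) * ev N hN (Polynomial.aeval (Dl ℤ[T;T⁻¹]) p f n) =
        K ⟨N, hN⟩ * Φ ⟨N, hN⟩ (Polynomial.aeval (b - 1) p * X n) := by
      rw [Polynomial.aeval_eq_sum_range, Polynomial.aeval_eq_sum_range, LinearMap.sum_apply,
        Finset.sum_apply, map_sum, Finset.mul_sum, Finset.sum_mul]
      have h2 : ∀ (s : Finset ℕ) (g : ℕ → BB m), Φ ⟨N, hN⟩ (∑ i ∈ s, g i) =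
          ∑ i ∈ s, Φ ⟨N, hN⟩ (g i) := by
        classical
        intro s g
        induction s using Finset.induction_on with
        | empty => simp [hΦ0]
        | insert a s ha ih => rw [Finset.sum_insert ha, Finset.sum_insert ha, hΦa, ih]
      rw [h2, Finset.mul_sum]
      refine Finset.sum_congr rfl fun i _ => ?_
      have h3 := hpow ⟨N, hN⟩ i n
      simp only at h3
      rw [smul_mul_assoc, hΦs, LinearMap.smul_apply, Pi.smul_apply, smul_eq_mul, map_mul,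
        mul_left_comm, h3]
      ring
    have hp5 : Polynomial.aeval (b - 1) p = 0 := hp4
    rw [hp5, zero_mul, hΦ0, mul_zero] at h1
    exact (mul_eq_zero.1 h1).resolve_left hNC
  -- subtract the constant
  set g : ℤ → ℤ[T;T⁻¹] := fun n => f n - F with hg
  have hDg : Dl ℤ[T;T⁻¹] g = Dl ℤ[T;T⁻¹] f := by
    funext n
    show g (n+1) - g n = f (n+1) - f n
    simp only [hg]
    ring
  have hrecg : Polynomial.aeval (Dl ℤ[T;T⁻¹]) (p * Polynomial.X) g = 0 := by
    rw [map_mul, Polynomial.aeval_X, Module.End.mul_apply, hDg, ← Module.End.mul_apply]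
    have : Commute (Polynomial.aeval (Dl ℤ[T;T⁻¹]) p) (Dl ℤ[T;T⁻¹]) := by
      have h1 := Polynomial.aeval_X (R := ℤ[T;T⁻¹]) (Dl ℤ[T;T⁻¹])
      rw [← h1]
      rw [Polynomial.aeval_X]
      show Polynomial.aeval (Dl ℤ[T;T⁻¹]) p * Dl ℤ[T;T⁻¹] = Dl ℤ[T;T⁻¹] * Polynomial.aeval (Dl ℤ[T;T⁻¹]) p
      have h2 : Polynomial.aeval (Dl ℤ[T;T⁻¹]) (p * Polynomial.X) =
        Polynomial.aeval (Dl ℤ[T;T⁻¹]) (Polynomial.X * p) := by rw [mul_comm]
      rw [map_mul, map_mul, Polynomial.aeval_X] at h2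
      exact h2
    rw [this.eq, Module.End.mul_apply, hrec, map_zero]
  have hmon : (p * Polynomial.X).Monic := hp1.mul Polynomial.monic_X
  have hdeg : (p * Polynomial.X).natDegree = p.natDegree + 1 := by
    rw [hp1.natDegree_mul Polynomial.monic_X, Polynomial.natDegree_X]
  have hcoef : ∀ j, (T 1 + 1 : ℤ[T;T⁻¹]) ^ ((p * Polynomial.X).natDegree - j) ∣
      (p * Polynomial.X).coeff j := by
    intro j
    rcases j with _ | j
    · rw [Polynomial.mul_coeff_zero, Polynomial.coeff_X_zero, mul_zero]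
      exact dvd_zero _
    · rw [Polynomial.coeff_mul_X, hdeg]
      have := hp3 j
      have e : p.natDegree + 1 - (j + 1) = p.natDegree - j := by omega
      rw [e]
      exact this
  by_cases hall : ∀ n : ℤ, f n = F
  · exact Or.inl hall
  right
  intro Z hZ
  by_contra hcon
  apply hall
  have hz := vanish prime_pi not_pi_dvd_int eq_zero_of_pi_pow (p * Polynomial.X) hmon hcoef g hrecg Z
    (by rw [hdeg]; omega) (by
      intro z hz
      simp only [hg]
      rw [hZ z hz, sub_self])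
  intro n
  have := congrFun hz n
  exact sub_eq_zero.1 this

end Pool.Agent.X315.VP
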