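import Pool.Agent.W705.JV.Defs
import Pool.Agent.Y463.SK.Defs

/-!
# Powers of braids in virtual braid words
-/

set_option autoImplicit false

namespace Pool.Agent.X315.VP

open Pool.Agent.H891R2.Jones Pool.Agent.W639.RB Pool.Agent.Y463.SK Pool.Agent.W705.JV

variable {m : ℕ}

/-- the diagram obtained by drawing the virtual braid word `w` in the box of `O` and closing the rest
of the box by vertical strands -/
def diaV (O : Outer m) (w : List (VLetter m)) : Diagram (drawV O w).P := (drawV O w).close

/-- a word in the letters `σ_i^{±1}` as a virtual braid word -/
def cl (w : List (Letter m)) : List (VLetter m) := w.map Sum.inl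

/-- the permutation of the strands of a virtual braid word: the product of the transpositions of its
letters (classical and virtual crossings) -/
def pmV (w : List (VLetter m)) : Equiv.Perm (Fin m) := (w.map trV).prod

/-- the virtual braid word `w_1^{n_1} v_1 w_2^{n_2} v_2 ⋯ w_k^{n_k} v_k`, where the `w_i` are classical and
the `v_i` are virtual braid words -/
def multiV {k : ℕ} (w : Fin k → List (Letter m)) (v : Fin k → List (VLetter m)) (n : Fin k → ℤ) :
    List (VLetter m) :=
  (List.ofFn (fun i => cl (powW (w i) (n i)) ++ v i)).flatten

/-- the set of the integers `n` for which the diagram with the virtual braid `w^n v` in the box has the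
normalised bracket `F` -/
def HitsV (O : Outer m) (w : List (Letter m)) (v : List (VLetter m))
    (F : LaurentPolynomial ℤ) : Set ℤ :=
  {n | (diaV O (cl (powW w n) ++ v)).fPoly = F}

end Pool.Agent.X315.VP
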