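import Pool.Agent.X315.VP.Abs
import Pool.Agent.X315.VP.Defs

/-!
# Powers of braids in virtual braid words
-/

set_option autoImplicit false

namespace Pool.Agent.X315.VP

open Finset LaurentPolynomial Pool.Agent.H891R2.Jones Pool.Agent.W639.RB Pool.Agent.Y463.SK
  Pool.Agent.W705.JV

variable {m : ℕ}

/-- the operator of a virtual letter -/
noncomputable def opV (A : ℂ) (m N : ℕ) (x : VLetter m)
    (g : (Fin m → Fin N) → ((Fin m → Fin N) → ℂ)) : (Fin m → Fin N) → ((Fin m → Fin N) → ℂ) :=
  match x with
  | .inl x => lt A m N (x.1, (x.2 : ℕ)) g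
  | .inr i => fun a b => g (a ∘ Equiv.swap (⟨i, by omega⟩ : Fin m) ⟨i + 1, by omega⟩) b

/-- the operator of a virtual braid word -/
noncomputable def RV (A : ℂ) (m N : ℕ) (w : List (VLetter m))
    (g : (Fin m → Fin N) → ((Fin m → Fin N) → ℂ)) : (Fin m → Fin N) → ((Fin m → Fin N) → ℂ) :=
  w.foldr (opV A m N) g

theorem Zg_pushV {A : ℂ} {N : ℕ} (O : Outer m) (x : VLetter m)
    (g : (Fin m → Fin N) → ((Fin m → Fin N) → ℂ)) :
    Zg A N (pushV O x) g = Zg A N O (opV A m N x g) := by
  rcases x with x | i
  · have h := Zg_draw (A := A) (N := N) [(x.1, (x.2 : ℕ))] O (by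
      intro y hy
      rw [List.mem_singleton] at hy
      subst hy
      have := x.2.2
      show (x.2 : ℕ) + 1 < m
      omega) g
    have h2 : rho A m N [(x.1, (x.2 : ℕ))] g = lt A m N (x.1, (x.2 : ℕ)) g := by simp [rho]
    rw [h2] at h
    exact h
  · rfl

theorem Zg_drawV {A : ℂ} {N : ℕ} (w : List (VLetter m)) : ∀ (O : Outer m)
    (g : (Fin m → Fin N) → ((Fin m → Fin N) → ℂ)),
    Zg A N (drawV O w) g = Zg A N O (RV A m N w g) := by
  induction w with
  | nil => intro O g; rfl
  | cons x w ih =>
    intro O g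
    have h1 : drawV O (x :: w) = drawV (pushV O x) w := rfl
    rw [h1, ih, Zg_pushV]
    rfl

/-! ### the writhe and the directions -/

/-- the contribution of a virtual word to the writhe -/
def costV : List (VLetter m) → (ℕ → ℤ) → ℤ
  | [], _ => 0
  | (.inl x :: w), U => (if x.1 then 1 else -1) * (U x.2 * U (x.2+1)) +
      costV w (U ∘ Equiv.swap (x.2 : ℕ) (x.2+1))
  | (.inr i :: w), U => costV w (U ∘ Equiv.swap (i : ℕ) (i+1))

theorem pat_virt (O : Outer m) (i : Fin (m - 1)) :
    pat (virt O i).up = pat O.up ∘ Equiv.swap (i : ℕ) (i + 1) := by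
  have hi : (i : ℕ) + 1 < m := by omega
  have h := (push_writhe O true i hi).2
  have h2 : (O.push true i).up = (virt O i).up := by
    unfold Outer.push
    rw [dif_pos hi]
    rfl
  rw [← h, h2]

theorem drawV_writhe (w : List (VLetter m)) : ∀ (O : Outer m),
    owr (drawV O w) = owr O + costV w (pat O.up) := by
  induction w with
  | nil => intro O; simp [drawV, costV]
  | cons x w ih =>
    intro O
    have h1 : drawV O (x :: w) = drawV (pushV O x) w := rfl
    rw [h1, ih]
    rcases x with x | i
    · have hi : (x.2 : ℕ) + 1 < m := by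
        have := x.2.2
        omega
      have h2 := push_writhe O x.1 x.2 hi
      show owr (O.push x.1 x.2) + costV w (pat (O.push x.1 x.2).up) = _
      rw [h2.1, h2.2]
      simp only [costV]
      ring
    · show owr (virt O i) + costV w (pat (virt O i).up) = _
      rw [pat_virt]
      rfl

theorem pushV_up (O : Outer m) (x : VLetter m) : (pushV O x).up = O.up ∘ trV x := by
  rcases x with x | i
  · have hi : (x.2 : ℕ) + 1 < m := by
      have := x.2.2
      omega
    show (O.push x.1 x.2).up = _
    unfold Outer.push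
    rw [dif_pos hi]
    rfl
  · rfl

theorem drawV_up (w : List (VLetter m)) : ∀ (O : Outer m), (drawV O w).up = O.up ∘ pmV w := by
  induction w with
  | nil => intro O; rfl
  | cons x w ih =>
    intro O
    have h1 : drawV O (x :: w) = drawV (pushV O x) w := rfl
    rw [h1, ih, pushV_up]
    have h2 : pmV (x :: w) = trV x * pmV w := by simp [pmV]
    rw [h2]
    rfl

theorem pmV_append (w w' : List (VLetter m)) : pmV (w ++ w') = pmV w * pmV w' := by
  simp [pmV]

theorem pmV_cl (w : List (Letter m)) : pmV (cl w) = permW w := by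
  unfold pmV cl permW
  rw [List.map_map]
  rfl

theorem Sst_virt (O : Outer m) (v : Fin m → Bool) (i : Fin (m - 1)) (x : O.P) :
    Sst (virt O i) v x = Sst O v x := by
  unfold Sst
  have h := Equiv.sum_comp (Equiv.swap (⟨i, by omega⟩ : Fin m) ⟨i + 1, by omega⟩)
    (fun j => if O.up j = true ∧ O.lower j = x then 1 else 0)
  show (O.arcs.map (fun z => if z.1 = x then 1 else 0)).sum + (O.crossings.map (cst x)).sum +
    (∑ j, if O.up (Equiv.swap (⟨i, by omega⟩ : Fin m) ⟨i + 1, by omega⟩ j) = true ∧
      O.lower (Equiv.swap (⟨i, by omega⟩ : Fin m) ⟨i + 1, by omega⟩ j) = x then 1 else 0) +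
      (∑ j, if ¬ v j = true ∧ O.upper j = x then 1 else 0) = _
  rw [h]

theorem Good_virt (O : Outer m) (v : Fin m → Bool) (i : Fin (m - 1)) (hO : Good O v) :
    Good (virt O i) v :=
  ⟨fun x => (Sst_virt O v i x).trans (hO.1 x),
    fun x => (Sst_virt O.rev (fun j => !(v j)) i x).trans (hO.2 x)⟩

theorem Good_drawV (v : Fin m → Bool) (w : List (VLetter m)) : ∀ (O : Outer m),
    Good O v → Good (drawV O w) v := by
  induction w with
  | nil => intro O h; exact h
  | cons x w ih =>
    intro O h
    have h1 : drawV O (x :: w) = drawV (pushV O x) w := rfl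
    rw [h1]
    apply ih
    rcases x with x | i
    · exact Good_push O v x.1 x.2 h
    · exact Good_virt O v i h

theorem diaV_closed (O : Outer m) (hO : O.close.IsClosed) (w : List (VLetter m))
    (hw : ∀ j, O.up (pmV w j) = O.up j) : (diaV O w).IsClosed := by
  show (drawV O w).close.IsClosed
  rw [closed_iff] at hO ⊢
  have h : (drawV O w).up = O.up := by
    rw [drawV_up]
    funext j
    exact hw j
  rw [h]
  exact Good_drawV _ _ O hO

/-! ### one power -/

/-- the polynomial of the diagram with a classical word followed by a virtual word -/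
noncomputable def ffV (O : Outer m) (a : List (Bool × ℕ)) (v : List (VLetter m)) : ℤ[T;T⁻¹] :=
  (drawV (draw O a) v).close.fPoly

theorem ev_ffV (hm : 0 < m) (O : Outer m) (a : List (Bool × ℕ)) (ha : ∀ x ∈ a, x.2 + 1 < m)
    (v : List (VLetter m)) (N : {N : ℕ // 3 ≤ N}) :
    (N.1 : ℂ) * ev N.1 N.2 (ffV O a v) =
      (if Even (owr O + (costS a (pat O.up) + costV v (pat O.up ∘ permL a))) then (1 : ℂ) else -1) *
        (Ar N.1) ^ (-3 * (owr O + (costS a (pat O.up) + costV v (pat O.up ∘ permL a)))) *
        Zg (Ar N.1) N.1 O (rho (Ar N.1) m N.1 a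
          (RV (Ar N.1) m N.1 v (fun x y => ind (x = y)))) := by
  set e := owr O + (costS a (pat O.up) + costV v (pat O.up ∘ permL a)) with he
  have : Nonempty (drawV (draw O a) v).P := ⟨(drawV (draw O a) v).lower ⟨0, hm⟩⟩
  have h1 := ev_bracket N.1 N.2 (drawV (draw O a) v).close
  rw [Z_close, Zg_drawV, Zg_draw a O ha] at h1
  have h2 : (drawV (draw O a) v).close.writhe = e := by
    rw [close_writhe, drawV_writhe, (draw_writhe a O ha).1, (draw_writhe a O ha).2, he]
    ring
  unfold ffV Diagram.fPoly
  rw [map_mul, map_mul, h2, ev_T]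
  have h3 : ev N.1 N.2 (if Even e then 1 else -1) = if Even e then (1 : ℂ) else -1 := by
    split_ifs <;> simp
  rw [h3, ← h1]
  ring

/-- **Powers of one pure braid inside a virtual braid word.** -/
theorem singleV (hm : 0 < m) (O : Outer m) (w : List (Bool × ℕ)) (hw : ∀ x ∈ w, x.2 + 1 < m)
    (hp : permL w = 1) (b : List (Bool × ℕ)) (hb : ∀ x ∈ b, x.2 + 1 < m) (v : List (VLetter m))
    (F : ℤ[T;T⁻¹]) :
    (∀ n : ℤ, ffV O (powL w n ++ b) v = F) ∨
    ∀ Z : Finset ℤ, (∀ z ∈ Z, ffV O (powL w z ++ b) v = F) → Z.card ≤ m.factorial := by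
  set e0 := owr O + (costS b (pat O.up) + costV v (pat O.up ∘ permL b)) with he0
  refine single_abs hm w hw hp O.up (fun n => ffV O (powL w n ++ b) v)
    (fun N => (if Even e0 then (1 : ℂ) else -1) * (Ar N.1) ^ (-3 * e0))
    (fun N x => Zg (Ar N.1) N.1 O ((x N) (rho (Ar N.1) m N.1 b
      (RV (Ar N.1) m N.1 v (fun x y => ind (x = y)))))) ?_ ?_ ?_ F
  · intro N x y
    rw [BB_add, LinearMap.add_apply, Zg_add]
  · intro N r x
    rw [BB_smul, LinearMap.smul_apply, Zg_smul]
  · intro N n
    have hA := Ar_ne N.1 N.2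
    have h1 : ∀ x ∈ powL w n ++ b, x.2 + 1 < m := by
      intro x hx
      rcases List.mem_append.1 hx with h | h
      · exact powL_lt hw n x h
      · exact hb x h
    have hev : Even (costS w (pat O.up)) := even_cost w hw hp O.up
    have h2 : costS (powL w n ++ b) (pat O.up) = n * costS w (pat O.up) + costS b (pat O.up) := by
      rw [costS_append, costS_powL hp, permL_powL hp]
      rfl
    have h2' : permL (powL w n ++ b) = permL b := by
      rw [permL_append, permL_powL hp, one_mul]
    have h4 : owr O + (n * costS w (pat O.up) + costS b (pat O.up) +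
        costV v (pat O.up ∘ permL b)) = e0 + n * costS w (pat O.up) := by
      rw [he0]; ring
    have h3 : Even (e0 + n * costS w (pat O.up)) ↔ Even e0 := by
      rw [Int.even_add]
      simp [hev.mul_left n]
    show (N.1 : ℂ) * ev N.1 N.2 (ffV O (powL w n ++ b) v) = _
    rw [ev_ffV hm O _ h1 v N, h2, h2', h4, BB_smul, LinearMap.smul_apply, Zg_smul, ev_T,
      rho_append, bb_apply]
    have h5 : (Ar N.1) ^ (-3 * (e0 + n * costS w (pat O.up))) =
        (Ar N.1) ^ (-3 * e0) * (Ar N.1) ^ (-3 * (n * costS w (pat O.up))) := by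
      rw [← zpow_add₀ hA]
      congr 1
      ring
    rw [h5]
    simp only [h3, Module.End.mul_apply]
    ring

theorem ffV_congr (hm : 0 < m) (O : Outer m) {a a' : List (Bool × ℕ)}
    (ha : ∀ x ∈ a, x.2 + 1 < m) (ha' : ∀ x ∈ a', x.2 + 1 < m) (h : Eqv m a a')
    (v : List (VLetter m)) : ffV O a v = ffV O a' v := by
  rw [← sub_eq_zero]
  apply eq_zero_of_ev
  intro N hN
  have hNC : (N : ℂ) ≠ 0 := by
    rw [Nat.cast_ne_zero]; omega
  have h1 := ev_ffV hm O a ha v ⟨N, hN⟩
  have h2 := ev_ffV hm O a' ha' v ⟨N, hN⟩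
  have h3 : rho (Ar N) m N a = rho (Ar N) m N a' := by
    have := congrFun h.1 ⟨N, hN⟩
    rwa [bb_apply, bb_apply] at this
  simp only at h1 h2
  rw [h.2.2, h.2.1, h3, ← h2] at h1
  have h4 := mul_left_cancel₀ hNC h1
  rw [map_sub, h4, sub_self]

/-- **Powers of one arbitrary braid inside a virtual braid word.** -/
theorem single_generalV (hm : 0 < m) (O : Outer m) (w : List (Bool × ℕ))
    (hw : ∀ x ∈ w, x.2 + 1 < m) (r : ℕ) (hp : permL (powL w r) = 1) (s : ℤ)
    (v : List (VLetter m)) (F : ℤ[T;T⁻¹]) :
    (∀ q : ℤ, ffV O (powL w (r * q + s)) v = F) ∨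
    ∀ Z : Finset ℤ, (∀ z ∈ Z, ffV O (powL w (r * z + s)) v = F) → Z.card ≤ m.factorial := by
  have hwr := powL_lt hw r
  have h1 : ∀ q : ℤ, ffV O (powL w (r * q + s)) v = ffV O (powL (powL w r) q ++ powL w s) v := by
    intro q
    apply ffV_congr hm O (powL_lt hw _) ?_ (powL_mul hw r s q)
    intro x hx
    rcases List.mem_append.1 hx with h | h
    · exact powL_lt hwr _ x h
    · exact powL_lt hw s x h
  simp only [h1]
  exact singleV hm O (powL w r) hwr hp (powL w s) (powL_lt hw s) v F

/-! ### several powers -/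

theorem drawV_append (O : Outer m) (w w' : List (VLetter m)) :
    drawV O (w ++ w') = drawV (drawV O w) w' := by
  unfold drawV
  rw [List.foldl_append]

theorem drawV_cl (w : List (Letter m)) : ∀ O : Outer m, drawV O (cl w) = draw O (toN w) := by
  induction w with
  | nil => intro O; rfl
  | cons x w ih =>
    intro O
    exact ih (O.push x.1 x.2)

theorem diaV_cl (O : Outer m) (w : List (Letter m)) (v : List (VLetter m)) :
    (diaV O (cl w ++ v)).fPoly = ffV O (toN w) v := by
  unfold diaV ffV
  rw [drawV_append, drawV_cl]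

theorem lineV {k : ℕ} (hm : 0 < m) (O : Outer m) (w : Fin k → List (Letter m))
    (v : Fin k → List (VLetter m)) (r : Fin k → ℕ) (hr : ∀ i, IsPure (powW (w i) (r i)))
    (s : Fin k → ℤ) (F : ℤ[T;T⁻¹]) (x : Fin k → ℤ) (i : Fin k) :
    (∀ t, (diaV O (multiV w v (fun j => r j * Function.update x i t j + s j))).fPoly = F) ∨
      ∀ Z : Finset ℤ, (∀ z ∈ Z, (diaV O (multiV w v
        (fun j => r j * Function.update x i z j + s j))).fPoly = F) → Z.card ≤ m.factorial := by
  obtain ⟨pre, post, h⟩ := flatten_update k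
    (fun j => cl (powW (w j) (r j * x j + s j)) ++ v j) i
  have h1 : ∀ t, multiV w v (fun j => r j * Function.update x i t j + s j) =
      pre ++ (cl (powW (w i) (r i * t + s i)) ++ (v i ++ post)) := by
    intro t
    have h2 : (fun j => cl (powW (w j) (r j * Function.update x i t j + s j)) ++ v j) =
        Function.update (fun j => cl (powW (w j) (r j * x j + s j)) ++ v j) i
          (cl (powW (w i) (r i * t + s i)) ++ v i) := by
      funext j
      by_cases hj : j = i
      · subst hj; rw [Function.update_self, Function.update_self]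
      · rw [Function.update_of_ne hj, Function.update_of_ne hj]
    unfold multiV
    rw [h2, h]
    simp only [List.append_assoc]
  have h3 : ∀ t, (diaV O (multiV w v (fun j => r j * Function.update x i t j + s j))).fPoly =
      ffV (drawV O pre) (powL (toN (w i)) (r i * t + s i)) (v i ++ post) := by
    intro t
    rw [h1, ← toN_pow, ← diaV_cl]
    unfold diaV
    rw [drawV_append]
  simp only [h3]
  refine single_generalV hm _ _ (toN_lt _) (r i) ?_ _ _ F
  rw [← toN_pow]
  exact permL_of_pure (hr i)

/-- **Several powers of arbitrary braids inside a virtual braid word.** -/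
theorem multi_generalV {k : ℕ} (hm : 0 < m) (O : Outer m) (w : Fin k → List (Letter m))
    (v : Fin k → List (VLetter m)) (r : Fin k → ℕ) (hr : ∀ i, IsPure (powW (w i) (r i)))
    (s : Fin k → ℤ) (F : ℤ[T;T⁻¹]) [DecidableEq ℤ[T;T⁻¹]] :
    (∀ q : Fin k → ℤ, (diaV O (multiV w v (fun i => r i * q i + s i))).fPoly = F) ∨
    ∀ A : Fin k → Finset ℤ, ((Fintype.piFinset A).filter
      (fun q => (diaV O (multiV w v (fun i => r i * q i + s i))).fPoly = F)).card ≤
        m.factorial * ∑ i, ∏ j ∈ univ.erase i, (A j).card :=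
  grid {q | (diaV O (multiV w v (fun i => r i * q i + s i))).fPoly = F} m.factorial
    (lineV hm O w v r hr s F)

/-- the permutation of a power depends only on the residue of the exponent -/
theorem permW_powW (w : List (Letter m)) (r : ℕ) (hr : IsPure (powW w r)) (q s : ℤ) :
    permW (powW w (r * q + s)) = permW (powW w s) := by
  have h1 : permL (toN (powW w (r * q + s))) = permL (toN (powW w s)) := by
    have hp : permL (powL (toN w) r) = 1 := by
      rw [← toN_pow]; exact permL_of_pure hr
    rw [toN_pow, toN_pow, (powL_mul (toN_lt w) r s q).2.1, permL_append, permL_powL hp, one_mul]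
  ext j
  have h2 := (permL_toN (powW w (r * q + s))).1 j
  have h3 := (permL_toN (powW w s)).1 j
  rw [← h2, ← h3, h1]

theorem pmV_flatten (l : List (List (VLetter m))) : pmV l.flatten = (l.map pmV).prod := by
  induction l with
  | nil => rfl
  | cons w l ih => rw [List.flatten_cons, pmV_append, ih, List.map_cons, List.prod_cons]

theorem pmV_multi {k : ℕ} (w : Fin k → List (Letter m)) (v : Fin k → List (VLetter m))
    (r : Fin k → ℕ) (hr : ∀ i, IsPure (powW (w i) (r i))) (s q : Fin k → ℤ) :
    pmV (multiV w v (fun i => r i * q i + s i)) = pmV (multiV w v s) := by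
  unfold multiV
  rw [pmV_flatten, pmV_flatten, List.map_ofFn, List.map_ofFn]
  congr 2
  funext i
  simp only [Function.comp_apply, pmV_append, pmV_cl]
  rw [permW_powW (w i) (r i) (hr i)]

theorem multi_closedV {k : ℕ} (O : Outer m) (w : Fin k → List (Letter m))
    (v : Fin k → List (VLetter m)) (r : Fin k → ℕ) (hr : ∀ i, IsPure (powW (w i) (r i)))
    (s : Fin k → ℤ) (hO : O.close.IsClosed)
    (hv : ∀ j, O.up (pmV (multiV w v s) j) = O.up j) (q : Fin k → ℤ) :
    (diaV O (multiV w v (fun i => r i * q i + s i))).IsClosed := by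
  apply diaV_closed O hO
  intro j
  rw [pmV_multi w v r hr s q]
  exact hv j

end Pool.Agent.X315.VP
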